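import Pool.Agent.Q28.MB.Defs
import Pool.Agent.Q28.MC.D
import Pool.Agent.Q28.MC.Transfer

/-!
# Murre's conjecture (B) from one decomposition: the proof
-/

open CategoryTheory AlgebraicGeometry

universe u v w

namespace Pool.Agent.Q28.MB

open Pool.Agent.H914 Pool.Agent.H914.VarClass Pool.Agent.H914.VarClass.Obj Pool.Agent.W492.BB
  Pool.Agent.TH133 Pool.Agent.W550.Corr Pool.Agent.Q28.MC

set_option linter.unusedSectionVars false

variable {k : Type u} [Field k] {𝒱 : VarClass k} {C : TheoryData.{u, v, 0} 𝒱 ℚ}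
  [hC : IsChowProj C] {K : Type w} [Field K] {H : WeilTheoryData.{u, v, w} C K}
  [hH : IsWeilProj H] {X : 𝒱.Obj}

include hC hH

lemma b0At_iff {π : ℕ → C.A (X.prod X)} (h : IsCK H X π) (i : ℕ) :
    SatisfiesB0At π i ↔ ∀ (j : ℕ) (x : C.A X), C.Deg i x → 2 * i < j → C.act (π j) x = 0 := by
  constructor
  · intro h1 j x hx hj
    have h2 : x ∈ ckFil C π i 0 := by
      rw [show ckFil C π i 0 = C.gr X i from h1]
      exact hx
    rw [h.mem_ckFil] at h2
    exact h2.2 j (by omega)
  · intro h1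
    ext x
    rw [h.mem_ckFil]
    exact ⟨fun h2 => h2.1, fun hx => ⟨hx, fun j hj => h1 j x hx (by omega)⟩⟩

/-- **The first half of (B) for `π^t × π` in codimension `dim X`.** -/
theorem b0At_square_iff {π : ℕ → C.A (X.prod X)} (h : IsCK H X π) :
    SatisfiesB0At (MD.squareCK π) X.dim ↔ NeverRaises C π := by
  have hsq : IsCK H (X.prod X) (MD.squareCK π) := h.dual.prod h
  rw [b0At_iff hsq]
  constructor
  · intro hB γ hγ a b hab
    by_cases ha : a ≤ 2 * X.dim
    · apply comp_zero_of_prod (H := H) h h ha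
      exact hB _ γ hγ (by omega)
    · rw [h.out a (by omega), zero_comp, zero_comp]
  · intro hL m γ hγ hm
    have h1 : MD.squareCK (C := C) π m = ∑ i ∈ Finset.range (m + 1),
        tens C (dualCK C π i) (π (m - i)) := rfl
    rw [h1, act_sum]
    apply Finset.sum_eq_zero
    intro i hi
    rw [Finset.mem_range] at hi
    by_cases hi2 : i ≤ 2 * X.dim
    · have h2 : dualCK C π i = tp C (π (2 * X.dim - i)) := by
        unfold dualCK
        rw [if_pos hi2]
      rw [h2, act_tens C (ch_comm C), tp_tp]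
      exact hL γ hγ _ _ (by omega)
    · have h2 : dualCK C π i = 0 := by
        unfold dualCK
        rw [if_neg hi2]
      rw [h2, tens_zero_left, C.act_zero]

/-- Non-raising implies the first half of (B) for `X`. -/
theorem b0At_of_neverRaises {π : ℕ → C.A (X.prod X)} (h : IsCK H X π) (hr : NeverRaises C π)
    (i : ℕ) : SatisfiesB0At π i := by
  rw [b0At_iff h]
  intro b z hz hb
  by_cases hi : i ≤ X.dim
  · obtain ⟨u0, hu0, v0, hv0, huv⟩ := exists_dual_pair (C := C) (H := H) X (l := i) hi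
    set Γ : C.A (X.prod X) := C.ext v0 z with hΓdef
    have hΓ : C.Deg X.dim Γ := by
      have h1 := ext_mem (C := C) (H := H) hv0 (show z ∈ C.gr X i from hz)
      rwa [sub_add_cancel] at h1
    have h1 := hr Γ hΓ (2 * i) b hb
    have h2 : C.act (C.comp (C.comp (π (2 * i)) Γ) (π b)) u0 = 0 := by
      rw [h1, C.act_zero]
    rw [C.act_comp, C.act_comp] at h2
    have h3 : C.act Γ (C.act (π (2 * i)) u0) = z := by
      rw [hΓdef, act_ext (H := H)]
      have h4 : C.push (snd X X) (C.pull (fst X X) (v0 * C.act (π (2 * i)) u0)) = 1 := by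
        rw [← huv]
        have hw : C.act (π (2 * i)) u0 ∈ C.gr X i := act_mem0 C (h.deg _) hu0
        apply deg_eq_of_cl (H := H)
        · have := C.mul_mem hv0 hw
          rwa [sub_add_cancel] at this
        · have := C.mul_mem hv0 hu0
          rwa [sub_add_cancel] at this
        · rw [map_mul, map_mul, cl_act H]
          congr 1
          have h5 := H.cl_mem hu0
          exact h.act_self (2 * i) _ (by exact_mod_cast h5)
      rw [h4, one_mul]
    rwa [h3] at h2
  · rw [h.out b (by omega), C.act_zero]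

/-- Under the universal form of (C), the second half of (B) passes to all decompositions. -/
lemma b1At_of_murreC (hCX : MurreC H X) {π π' : ℕ → C.A (X.prod X)} (h : IsCK H X π)
    (h' : IsCK H X π') {i : ℕ} (h1 : SatisfiesB1At π i) : SatisfiesB1At π' i := by
  have h2 := hCX π' π h' h i (i + 1)
  exact h2.trans h1

lemma universal_iff {π : ℕ → C.A (X.prod X)} (h : IsCK H X π) :
    UniversalC H X ↔ SatisfiesB0At (MD.squareCK π) X.dim ∧ NoPhantoms H X := by
  rw [universalC_iff h, b0At_square_iff h]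
  rfl

lemma murreB0_of_universal (hU : UniversalC H X) : MurreB0 H X := fun _ h i =>
  b0At_of_neverRaises h ((universalC_iff h).1 hU).1 i

lemma universal_of_B0 {π : ℕ → C.A (X.prod X)} (h : IsCK H X π)
    (hB : ∀ σ : ℕ → C.A ((X.prod X).prod (X.prod X)), IsCK H (X.prod X) σ →
      SatisfiesB0At σ X.dim) : UniversalC H X := by
  have hB' : ∀ σ, IsCK H (X.prod X) σ → ∀ (j : ℕ) (x : C.A (X.prod X)),
      x ∈ C.gr (X.prod X) X.dim → 2 * X.dim < j → C.act (σ j) x = 0 := fun σ hσ j x hx hj =>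
    (b0At_iff hσ X.dim).1 (hB σ hσ) j x hx hj
  rw [universalC_iff h]
  exact ⟨fun γ hγ a b hab => comp_zero_of_B0At hB' h h hγ hab, noPhantoms_of_B0At hB' h⟩

omit hC hH in
theorem main (C : TheoryData.{u, v, 0} 𝒱 ℚ)
    [IsChowProj C] {K : Type w} [Field K] (H : WeilTheoryData.{u, v, w} C K) [IsWeilProj H] :
    (∀ (X : 𝒱.Obj) (i : ℕ), MD.NoIdempotentActionAt H X i →
      ∀ π π', IsCK H X π → IsCK H X π' →
        (SatisfiesB0At π i → SatisfiesB0At π' i) ∧ (SatisfiesB1At π i → SatisfiesB1At π' i)) ∧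
    (∀ X : 𝒱.Obj, MurreB0 H X → MurreB1 H X →
      ∀ π, IsCK H X π → MD.PhantomsActTrivially H π) ∧
    (∀ (X : 𝒱.Obj) (π : ℕ → C.A (X.prod X)), IsCK H X π →
      (SatisfiesB0At (MD.squareCK π) X.dim ↔ MD.NeverRaises π) ∧
      (MD.NeverRaises π → ∀ i, SatisfiesB0At π i) ∧
      (MD.NeverRaises π → NoPhantoms H X → MurreB0 H X ∧ MurreC H X ∧
        ((∀ i, SatisfiesB1At π i) → MurreB1 H X)) ∧
      ((∀ σ, IsCK H (X.prod X) σ → SatisfiesB0At σ X.dim) →
        MD.NeverRaises π ∧ NoPhantoms H X)) ∧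
    (∀ F : 𝒱.Obj → Prop, (∀ X, F X → F (X.prod X)) → (∀ X, F X → ∃ π, IsCK H X π) →
      ((∀ X, F X → MurreB0 H X) ↔
        ∀ X, F X → NoPhantoms H X ∧ ∃ π, IsCK H X π ∧ SatisfiesB0At (MD.squareCK π) X.dim) ∧
      ((∀ X, F X → MurreB0 H X ∧ MurreB1 H X) ↔
        ∀ X, F X → NoPhantoms H X ∧ ∃ π, IsCK H X π ∧ SatisfiesB0At (MD.squareCK π) X.dim ∧
          ∀ i, SatisfiesB1At π i)) := by
  refine ⟨fun X i hN π π' h h' => ⟨b0_transfer hN h h', b1_transfer hN h h'⟩,
    fun X h0 h1 π h => phantoms_of_B h0 h1 h, fun X π h => ⟨b0At_square_iff h,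
      b0At_of_neverRaises h, ?_, ?_⟩, ?_⟩
  · intro hr hq
    have hU : UniversalC H X := (universalC_iff h).2 ⟨hr, hq⟩
    exact ⟨murreB0_of_universal hU, murreC_of_universal hU,
      fun h1 π' h' i => b1At_of_murreC (murreC_of_universal hU) h h' (h1 i)⟩
  · intro hB
    exact (universalC_iff h).1 (universal_of_B0 h hB)
  · intro F hF hCK
    have key : (∀ X, F X → MurreB0 H X) → ∀ X, F X → UniversalC H X := by
      intro hB X hX
      obtain ⟨π, h⟩ := hCK X hX
      exact universal_of_B0 h fun σ hσ => hB _ (hF X hX) σ hσ X.dim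
    constructor
    · constructor
      · intro hB X hX
        obtain ⟨π, h⟩ := hCK X hX
        have h1 := (universal_iff h).1 (key hB X hX)
        exact ⟨h1.2, π, h, h1.1⟩
      · intro h1 X hX
        obtain ⟨h2, π, h, h3⟩ := h1 X hX
        exact murreB0_of_universal ((universal_iff h).2 ⟨h3, h2⟩)
    · constructor
      · intro hB X hX
        obtain ⟨π, h⟩ := hCK X hX
        have h1 := (universal_iff h).1 (key (fun X hX => (hB X hX).1) X hX)
        exact ⟨h1.2, π, h, h1.1, fun i => (hB X hX).2 π h i⟩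
      · intro h1 X hX
        obtain ⟨h2, π, h, h3, h4⟩ := h1 X hX
        have hU := (universal_iff h).2 ⟨h3, h2⟩
        exact ⟨murreB0_of_universal hU,
          fun π' h' i => b1At_of_murreC (murreC_of_universal hU) h h' (h4 i)⟩

end Pool.Agent.Q28.MB
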