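import Pool.Agent.Q28.MD.Defs

/-!
# Murre's conjecture (B) from one decomposition: definitions
-/

open CategoryTheory AlgebraicGeometry

universe u v w

namespace Pool.Agent.Q28.MB

open Pool.Agent.H914 Pool.Agent.H914.VarClass Pool.Agent.H914.VarClass.Obj Pool.Agent.W492.BB
  Pool.Agent.W550.Corr Pool.Agent.TH133

variable {k : Type u} [Field k] {𝒱 : VarClass k} {C : TheoryData.{u, v, 0} 𝒱 ℚ} {X : 𝒱.Obj}

/-- The first half of (B) for the one Chow-Kunneth decomposition `π` of `X` in the one codimension
`i`: `F^0 CH^i(X) = CH^i(X)`. -/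
def SatisfiesB0At (π : ℕ → C.A (X.prod X)) (i : ℕ) : Prop := ckFil C π i 0 = C.gr X i

/-- The second half of (B) for the one Chow-Kunneth decomposition `π` of `X` in the one codimension
`i`: `F^(i+1) CH^i(X) = 0`. -/
def SatisfiesB1At (π : ℕ → C.A (X.prod X)) (i : ℕ) : Prop := ckFil C π i (i + 1) = ⊥

variable {K : Type w} [Field K] (H : WeilTheoryData.{u, v, w} C K)

/-- The Chow motive of `X` has no phantom summand: a homologically trivial idempotent
self-correspondence of degree zero is zero. -/
def NoPhantoms (X : 𝒱.Obj) : Prop :=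
  ∀ γ : C.A (X.prod X), C.Deg X.dim γ → C.comp γ γ = γ → H.cl γ = 0 → γ = 0

end Pool.Agent.Q28.MB
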